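import Pool.Agent.R550.GB.Graph
import Pool.Agent.NPC.Classes

/-!
# Chromatic discrepancy
-/

namespace Pool.Agent.R550.CD

variable {V : Type} [Fintype V] [DecidableEq V]

/-- A proper colouring of the vertices, with any number of colours. -/
def Proper (G : SimpleGraph V) (c : V → ℕ) : Prop := ∀ u v, G.Adj u v → c u ≠ c v

/-- The chromatic number of the subgraph induced by `S`. -/
noncomputable def chi (G : SimpleGraph V) (S : Finset V) : ℕ :=
  (G.induce (S : Set V)).chromaticNumber.toNat

/-- `φ_c(G)`: the maximum of `|c(H)| - χ(H)` over all induced subgraphs `H` of `G`. -/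
noncomputable def discOf (G : SimpleGraph V) (c : V → ℕ) : ℕ :=
  (Finset.univ : Finset (Finset V)).sup fun S : Finset V => (S.image c).card - chi G S

/-- The chromatic discrepancy `φ(G)`: the minimum of `φ_c(G)` over all proper colourings `c`. -/
noncomputable def disc (G : SimpleGraph V) : ℕ := sInf {d | ∃ c, Proper G c ∧ d = discOf G c}

open Classical in
/-- The maximum of `|c(H)| - χ(H)` over all connected induced subgraphs `H` of `G`. -/
noncomputable def discConnOf (G : SimpleGraph V) (c : V → ℕ) : ℕ :=
  ((Finset.univ : Finset (Finset V)).filter fun S : Finset V =>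
    (G.induce (S : Set V)).Connected).sup fun S : Finset V => (S.image c).card - chi G S

/-- The parameter `φ̂(G)`: like the chromatic discrepancy, for connected induced subgraphs. -/
noncomputable def discConn (G : SimpleGraph V) : ℕ :=
  sInf {d | ∃ c, Proper G c ∧ d = discConnOf G c}

/-- The problem `L₁`: an instance consists of adjacency lists and a number `k`; is the chromatic
discrepancy of the graph at most `k`? -/
def L₁ (x : List (List ℕ) × ℕ) : Prop := disc (GB.graph x.1) ≤ x.2

/-- The problem `L₂`: the same for connected induced subgraphs. -/
def L₂ (x : List (List ℕ) × ℕ) : Prop := discConn (GB.graph x.1) ≤ x.2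

end Pool.Agent.R550.CD
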