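import Pool.Agent.R550.CD.Defs
import Pool.Agent.H632R2.X3C

/-!
# Chromatic discrepancy and exact covers
-/

namespace Pool.Agent.R550.CD

open Pool.Agent.NPC.H632

variable {V : Type} [Fintype V] [DecidableEq V]

theorem chi_le {G : SimpleGraph V} {S : Finset V} {m : ℕ}
    (h : (G.induce (S : Set V)).Colorable m) : chi G S ≤ m :=
  ENat.toNat_le_of_le_natCast h.chromaticNumber_le

theorem colorable_chi (G : SimpleGraph V) (S : Finset V) :
    (G.induce (S : Set V)).Colorable (chi G S) :=
  SimpleGraph.colorable_chromaticNumber (SimpleGraph.colorable_of_fintype _)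

theorem disc_le_iff {G : SimpleGraph V} {k : ℕ} :
    disc G ≤ k ↔ ∃ c, Proper G c ∧ ∀ S : Finset V, (S.image c).card ≤ chi G S + k := by
  constructor
  · intro h
    have hne : {d | ∃ c, Proper G c ∧ d = discOf G c}.Nonempty := by
      refine ⟨_, fun v => (Fintype.equivFin V v : ℕ), ?_, rfl⟩
      intro u v huv h1
      exact huv.ne ((Fintype.equivFin V).injective (Fin.ext h1))
    obtain ⟨c, hc, hd⟩ := Nat.sInf_mem hne
    refine ⟨c, hc, fun S => ?_⟩
    have h1 : (S.image c).card - chi G S ≤ discOf G c :=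
      Finset.le_sup (f := fun S : Finset V => (S.image c).card - chi G S) (Finset.mem_univ S)
    have h2 : discOf G c ≤ k := by rw [← hd]; exact h
    omega
  · rintro ⟨c, hc, h⟩
    refine le_trans (Nat.sInf_le ⟨c, hc, rfl⟩) ?_
    refine Finset.sup_le fun S _ => ?_
    have := h S
    omega

theorem discConn_le_iff {G : SimpleGraph V} {k : ℕ} :
    discConn G ≤ k ↔ ∃ c, Proper G c ∧ ∀ S : Finset V, (G.induce (S : Set V)).Connected →
      (S.image c).card ≤ chi G S + k := by
  classical
  constructor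
  · intro h
    have hne : {d | ∃ c, Proper G c ∧ d = discConnOf G c}.Nonempty := by
      refine ⟨_, fun v => (Fintype.equivFin V v : ℕ), ?_, rfl⟩
      intro u v huv h1
      exact huv.ne ((Fintype.equivFin V).injective (Fin.ext h1))
    obtain ⟨c, hc, hd⟩ := Nat.sInf_mem hne
    refine ⟨c, hc, fun S hS => ?_⟩
    have h1 : (S.image c).card - chi G S ≤ discConnOf G c :=
      Finset.le_sup (f := fun S : Finset V => (S.image c).card - chi G S)
        (Finset.mem_filter.2 ⟨Finset.mem_univ S, hS⟩)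
    have h2 : discConnOf G c ≤ k := by rw [← hd]; exact h
    omega
  · rintro ⟨c, hc, h⟩
    refine le_trans (Nat.sInf_le ⟨c, hc, rfl⟩) ?_
    refine Finset.sup_le fun S hS => ?_
    have := h S (Finset.mem_filter.1 hS).2
    omega

/-- A graph obtained from a family of triples: the vertices are given by the number of a block and
an element; block 0 consists of one vertex for each element, the other blocks belong to triples. -/
structure Lay (G : SimpleGraph V) (I : List (ℕ × ℕ × ℕ) × ℕ) where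
  /-- the block of a vertex -/
  blk : V → ℕ
  /-- the element of a vertex -/
  elm : V → ℕ
  /-- the triple of a block -/
  trp : ℕ → ℕ × ℕ × ℕ
  /-- the vertex of an element in a block -/
  vx : ℕ → ℕ → V
  trp_mem : ∀ v, blk v ≠ 0 → trp (blk v) ∈ I.1 ∧ elm v ∈ el (trp (blk v))
  elm_lt : ∀ v, elm v < 3 * I.2
  dummy : ∀ x < 3 * I.2, blk (vx 0 x) = 0 ∧ elm (vx 0 x) = x
  two : ∀ T ∈ I.1, ∃ t₁ t₂, t₁ ≠ 0 ∧ t₂ ≠ 0 ∧ t₁ ≠ t₂ ∧ trp t₁ = T ∧ trp t₂ = T ∧
    ∀ x ∈ el T, (blk (vx t₁ x) = t₁ ∧ elm (vx t₁ x) = x) ∧ (blk (vx t₂ x) = t₂ ∧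
      elm (vx t₂ x) = x)
  adj : ∀ u v, G.Adj u v ↔ elm u ≠ elm v ∧ ¬ (blk u = blk v ∧ blk u ≠ 0)

namespace Lay

variable {G : SimpleGraph V} {I : List (ℕ × ℕ × ℕ) × ℕ} (L : Lay G I)

include L

/-- In every proper colouring there are, for each triple, three independent vertices with three
different colours. -/
theorem exists_H (hI : X3CPr I) {c : V → ℕ} (hc : Proper G c) {T : ℕ × ℕ × ℕ} (hT : T ∈ I.1) :
    ∃ H : Finset V, (H.image c).card = 3 ∧ (∀ u ∈ H, ∀ v ∈ H, ¬ G.Adj u v) ∧
      ∀ u ∈ H, L.elm u ∈ el T ∧ (L.blk u = 0 ∨ L.trp (L.blk u) = T) := by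
  obtain ⟨t₁, t₂, h1, h2, h12, hT1, hT2, hv⟩ := L.two T hT
  obtain ⟨hnd, hlt⟩ := hI.1 T hT
  obtain ⟨a, b, e⟩ := T
  have hmem : el (a, b, e) = [a, b, e] := rfl
  rw [hmem] at hnd hlt hv ⊢
  simp only [List.nodup_cons, List.mem_cons, List.not_mem_nil, or_false, not_or,
    not_false_eq_true, List.nodup_nil, and_true] at hnd
  obtain ⟨⟨hab, hae⟩, hbe⟩ := hnd
  have three : ∀ x y z : ℕ, x ≠ y → x ≠ z → y ≠ z → ({x, y, z} : Finset ℕ).card = 3 :=
    fun x y z h h' h'' => by
      rw [Finset.card_insert_of_notMem (by simp [h, h']), Finset.card_pair h'']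
  -- a block with three colours
  have hA : ∀ t, t ≠ 0 → L.trp t = (a, b, e) →
      (∀ x ∈ [a, b, e], L.blk (L.vx t x) = t ∧ L.elm (L.vx t x) = x) →
      c (L.vx t a) ≠ c (L.vx t b) → c (L.vx t a) ≠ c (L.vx t e) → c (L.vx t b) ≠ c (L.vx t e) →
      ∃ H : Finset V, (H.image c).card = 3 ∧ (∀ u ∈ H, ∀ v ∈ H, ¬ G.Adj u v) ∧
        ∀ u ∈ H, L.elm u ∈ [a, b, e] ∧ (L.blk u = 0 ∨ L.trp (L.blk u) = (a, b, e)) := by
    intro t ht htr hx n1 n2 n3
    refine ⟨{L.vx t a, L.vx t b, L.vx t e}, ?_, ?_, ?_⟩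
    · rw [Finset.image_insert, Finset.image_insert, Finset.image_singleton]
      exact three _ _ _ n1 n2 n3
    · have hb : ∀ u ∈ ({L.vx t a, L.vx t b, L.vx t e} : Finset V), L.blk u = t := by
        intro u hu
        simp only [Finset.mem_insert, Finset.mem_singleton] at hu
        rcases hu with rfl | rfl | rfl
        · exact (hx a (by simp)).1
        · exact (hx b (by simp)).1
        · exact (hx e (by simp)).1
      intro u hu v hv huv
      rw [L.adj] at huv
      exact huv.2 ⟨(hb u hu).trans (hb v hv).symm, by rw [hb u hu]; exact ht⟩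
    · intro u hu
      simp only [Finset.mem_insert, Finset.mem_singleton] at hu
      rcases hu with rfl | rfl | rfl
      · obtain ⟨g1, g2⟩ := hx a (by simp)
        rw [g1, g2]
        exact ⟨by simp, Or.inr htr⟩
      · obtain ⟨g1, g2⟩ := hx b (by simp)
        rw [g1, g2]
        exact ⟨by simp, Or.inr htr⟩
      · obtain ⟨g1, g2⟩ := hx e (by simp)
        rw [g1, g2]
        exact ⟨by simp, Or.inr htr⟩
  -- an element whose vertices in both blocks share their colours with other elements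
  have hB : ∀ x y z, x ∈ [a, b, e] → y ∈ [a, b, e] → z ∈ [a, b, e] → x ≠ y → x ≠ z →
      c (L.vx t₁ x) = c (L.vx t₁ y) → c (L.vx t₂ x) = c (L.vx t₂ z) →
      ∃ H : Finset V, (H.image c).card = 3 ∧ (∀ u ∈ H, ∀ v ∈ H, ¬ G.Adj u v) ∧
        ∀ u ∈ H, L.elm u ∈ [a, b, e] ∧ (L.blk u = 0 ∨ L.trp (L.blk u) = (a, b, e)) := by
    intro x y z hx hy hz hxy hxz e1 e2
    obtain ⟨d1, d2⟩ := L.dummy x (hlt x hx)
    obtain ⟨⟨x1, x2⟩, ⟨x3, x4⟩⟩ := hv x hx
    obtain ⟨⟨y1, y2⟩, -⟩ := hv y hy
    obtain ⟨-, ⟨z3, z4⟩⟩ := hv z hz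
    refine ⟨{L.vx 0 x, L.vx t₁ x, L.vx t₂ x}, ?_, ?_, ?_⟩
    · rw [Finset.image_insert, Finset.image_insert, Finset.image_singleton]
      refine three _ _ _ ?_ ?_ ?_
      · rw [e1]
        refine hc _ _ ((L.adj _ _).2 ⟨?_, ?_⟩)
        · rw [d2, y2]; exact hxy
        · rw [d1, y1]
          rintro ⟨h, h'⟩
          exact h' rfl
      · rw [e2]
        refine hc _ _ ((L.adj _ _).2 ⟨?_, ?_⟩)
        · rw [d2, z4]; exact hxz
        · rw [d1, z3]
          rintro ⟨h, h'⟩
          exact h' rfl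
      · rw [e1]
        refine hc _ _ ((L.adj _ _).2 ⟨?_, ?_⟩)
        · rw [y2, x4]; exact hxy.symm
        · rw [y1, x3]
          rintro ⟨h, h'⟩
          exact h12 h
    · have hb : ∀ u ∈ ({L.vx 0 x, L.vx t₁ x, L.vx t₂ x} : Finset V), L.elm u = x := by
        intro u hu
        simp only [Finset.mem_insert, Finset.mem_singleton] at hu
        rcases hu with rfl | rfl | rfl
        · exact d2
        · exact x2
        · exact x4
      intro u hu v hv huv
      rw [L.adj] at huv
      exact huv.1 ((hb u hu).trans (hb v hv).symm)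
    · intro u hu
      simp only [Finset.mem_insert, Finset.mem_singleton] at hu
      rcases hu with rfl | rfl | rfl
      · rw [d2]; exact ⟨hx, Or.inl d1⟩
      · rw [x1, x2]; exact ⟨hx, Or.inr hT1⟩
      · rw [x3, x4]; exact ⟨hx, Or.inr hT2⟩
  by_cases p1 : c (L.vx t₁ a) = c (L.vx t₁ b)
  · by_cases q1 : c (L.vx t₂ a) = c (L.vx t₂ b)
    · exact hB a b b (by simp) (by simp) (by simp) hab hab p1 q1
    · by_cases q2 : c (L.vx t₂ a) = c (L.vx t₂ e)
      · exact hB a b e (by simp) (by simp) (by simp) hab hae p1 q2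
      · by_cases q3 : c (L.vx t₂ b) = c (L.vx t₂ e)
        · exact hB b a e (by simp) (by simp) (by simp) (Ne.symm hab) hbe p1.symm q3
        · exact hA t₂ h2 hT2 (fun x hx => (hv x hx).2) q1 q2 q3
  · by_cases p2 : c (L.vx t₁ a) = c (L.vx t₁ e)
    · by_cases q1 : c (L.vx t₂ a) = c (L.vx t₂ b)
      · exact hB a e b (by simp) (by simp) (by simp) hae hab p2 q1
      · by_cases q2 : c (L.vx t₂ a) = c (L.vx t₂ e)
        · exact hB a e e (by simp) (by simp) (by simp) hae hae p2 q2
        · by_cases q3 : c (L.vx t₂ b) = c (L.vx t₂ e)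
          · exact hB e a b (by simp) (by simp) (by simp) (Ne.symm hae) (Ne.symm hbe) p2.symm
              q3.symm
          · exact hA t₂ h2 hT2 (fun x hx => (hv x hx).2) q1 q2 q3
    · by_cases p3 : c (L.vx t₁ b) = c (L.vx t₁ e)
      · by_cases q1 : c (L.vx t₂ a) = c (L.vx t₂ b)
        · exact hB b e a (by simp) (by simp) (by simp) hbe (Ne.symm hab) p3 q1.symm
        · by_cases q2 : c (L.vx t₂ a) = c (L.vx t₂ e)
          · exact hB e b a (by simp) (by simp) (by simp) (Ne.symm hbe) (Ne.symm hae) p3.symm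
              q2.symm
          · by_cases q3 : c (L.vx t₂ b) = c (L.vx t₂ e)
            · exact hB b e e (by simp) (by simp) (by simp) hbe hbe p3 q3
            · exact hA t₂ h2 hT2 (fun x hx => (hv x hx).2) q1 q2 q3
      · exact hA t₁ h1 hT1 (fun x hx => (hv x hx).1) p1 p2 p3

/-- If there is an exact cover, every proper colouring has large discrepancy, attained by a
connected subgraph. -/
theorem large (hI : X3CPr I) (hq : 2 ≤ I.2) (hX : X3C I) {c : V → ℕ} (hc : Proper G c) :
    ∃ S : Finset V, (G.induce (S : Set V)).Connected ∧ chi G S + 2 * I.2 ≤ (S.image c).card := by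
  classical
  obtain ⟨C, hC, hu⟩ := (X3C_iff_finset hI).1 hX
  have hH : ∀ T : ℕ × ℕ × ℕ, ∃ H : Finset V, T ∈ C → (H.image c).card = 3 ∧
      (∀ u ∈ H, ∀ v ∈ H, ¬ G.Adj u v) ∧
      ∀ u ∈ H, L.elm u ∈ el T ∧ (L.blk u = 0 ∨ L.trp (L.blk u) = T) := by
    intro T
    by_cases hT : T ∈ C
    · obtain ⟨H, h⟩ := L.exists_H hI hc (hC T hT)
      exact ⟨H, fun _ => h⟩
    · exact ⟨∅, fun h => absurd h hT⟩
  choose H hH using hH
  -- vertices of different triples are adjacent
  have hadj : ∀ T ∈ C, ∀ T' ∈ C, T ≠ T' → ∀ u ∈ H T, ∀ v ∈ H T', G.Adj u v := by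
    intro T hT T' hT' hne u hu' v hv
    obtain ⟨-, -, h1⟩ := hH T hT
    obtain ⟨-, -, h2⟩ := hH T' hT'
    obtain ⟨h3, h4⟩ := h1 u hu'
    obtain ⟨h5, h6⟩ := h2 v hv
    rw [L.adj]
    constructor
    · intro h7
      rw [← h7] at h5
      exact hne ((hu _ (L.elm_lt u)).unique ⟨hT, h3⟩ ⟨hT', h5⟩)
    · rintro ⟨h7, h8⟩
      rcases h4 with h4 | h4
      · exact h8 h4
      · rcases h6 with h6 | h6
        · exact h8 (h7.trans h6)
        · rw [← h7, h4] at h6
          exact hne h6
  set S : Finset V := C.biUnion H with hS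
  have hcard : (S.image c).card = 3 * C.card := by
    rw [hS, Finset.biUnion_image, Finset.card_biUnion]
    · rw [Finset.sum_congr rfl fun T hT => (hH T hT).1, Finset.sum_const, smul_eq_mul, mul_comm]
    · intro T hT T' hT' hne
      show Disjoint ((H T).image c) ((H T').image c)
      rw [Finset.disjoint_left]
      intro y hy hy'
      obtain ⟨u, hu', rfl⟩ := Finset.mem_image.1 hy
      obtain ⟨v, hv', huv⟩ := Finset.mem_image.1 hy'
      exact hc _ _ (hadj T hT T' hT' hne u hu' v hv') huv.symm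
  have hCq : I.2 ≤ C.card := by
    have h1 : (Finset.range (3 * I.2)).card ≤ (C.biUnion fun T => (el T).toFinset).card := by
      refine Finset.card_le_card fun x hx => ?_
      obtain ⟨T, ⟨hT, hxT⟩, -⟩ := hu x (Finset.mem_range.1 hx)
      exact Finset.mem_biUnion.2 ⟨T, hT, List.mem_toFinset.2 hxT⟩
    have h2 : (C.biUnion fun T => (el T).toFinset).card ≤ C.card * 3 := by
      refine Finset.card_biUnion_le_card_mul _ _ _ fun T _ => ?_
      exact (List.toFinset_card_le _).trans (le_of_eq rfl)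
    rw [Finset.card_range] at h1
    omega
  -- the triple of a vertex
  have htr : ∀ v : (S : Set V), ∃ T : C, (v : V) ∈ H T := by
    rintro ⟨v, hv⟩
    rw [Finset.mem_coe, hS, Finset.mem_biUnion] at hv
    obtain ⟨T, hT, hv⟩ := hv
    exact ⟨⟨T, hT⟩, hv⟩
  choose tr htr using htr
  have hchi : chi G S ≤ C.card := by
    have h1 : (G.induce (S : Set V)).Colorable (Fintype.card C) := by
      refine (SimpleGraph.Coloring.mk tr ?_).colorable
      intro u v huv h2
      have h3 := htr u
      have h4 := htr v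
      rw [← h2] at h4
      exact (hH (tr u) (tr u).2).2.1 u h3 v h4 huv
    rw [Fintype.card_coe] at h1
    exact chi_le h1
  have hHne : ∀ T ∈ C, (H T).Nonempty := by
    intro T hT
    rw [Finset.nonempty_iff_ne_empty]
    intro h1
    have h2 := (hH T hT).1
    rw [h1] at h2
    simp at h2
  refine ⟨S, ?_, by omega⟩
  have : Nonempty (S : Set V) := by
    have h1 : 0 < C.card := by omega
    obtain ⟨T, hT⟩ := Finset.card_pos.1 h1
    obtain ⟨v, hv⟩ := hHne T hT
    exact ⟨⟨v, Finset.mem_biUnion.2 ⟨T, hT, hv⟩⟩⟩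
  refine ⟨fun u v => ?_⟩
  by_cases huv : tr u = tr v
  · -- use a vertex of another triple
    have h1 : 1 < C.card := by omega
    obtain ⟨T', hT', hne⟩ := Finset.exists_mem_ne h1 (tr u : ℕ × ℕ × ℕ)
    obtain ⟨w, hw⟩ := hHne T' hT'
    have hwS : w ∈ (S : Set V) := Finset.mem_biUnion.2 ⟨T', hT', hw⟩
    have h2 : (G.induce (S : Set V)).Adj u ⟨w, hwS⟩ :=
      hadj _ (tr u).2 _ hT' (Ne.symm hne) u (htr u) w hw
    have h3 : (G.induce (S : Set V)).Adj v ⟨w, hwS⟩ := by
      refine hadj _ (tr v).2 _ hT' ?_ v (htr v) w hw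
      rw [← huv]
      exact Ne.symm hne
    exact h2.reachable.trans h3.symm.reachable
  · have h2 : (G.induce (S : Set V)).Adj u v :=
      hadj _ (tr u).2 _ (tr v).2 (fun h => huv (Subtype.ext h)) u (htr u) v (htr v)
    exact h2.reachable

/-- If the colouring by elements has large discrepancy, there is an exact cover. -/
theorem cover (hI : X3CPr I) {S : Finset V}
    (h : chi G S + 2 * I.2 ≤ (S.image L.elm).card) : X3C I := by
  classical
  obtain ⟨d⟩ := colorable_chi G S
  set m := chi G S with hm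
  set q := I.2 with hq
  set Q : Fin m → Finset V := fun i => S.filter fun v => ∃ hv : v ∈ (S : Set V), d ⟨v, hv⟩ = i
    with hQ
  have hindep : ∀ i, ∀ u ∈ Q i, ∀ v ∈ Q i, ¬ G.Adj u v := by
    intro i u hu v hv huv
    obtain ⟨-, hu', h1⟩ := Finset.mem_filter.1 hu
    obtain ⟨-, hv', h2⟩ := Finset.mem_filter.1 hv
    have h3 : (G.induce (S : Set V)).Adj ⟨u, hu'⟩ ⟨v, hv'⟩ := huv
    exact d.valid h3 (h1.trans h2.symm)
  have hE : ∀ i, ((Q i).image L.elm).card ≤ 3 ∧ (((Q i).image L.elm).card = 3 →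
      ∃ T ∈ I.1, (Q i).image L.elm = (el T).toFinset) := by
    intro i
    rcases Nat.lt_or_ge 1 ((Q i).image L.elm).card with h1 | h1
    · obtain ⟨x, hx, y, hy, hxy⟩ := Finset.one_lt_card.1 h1
      obtain ⟨u, hu, rfl⟩ := Finset.mem_image.1 hx
      obtain ⟨v, hv, rfl⟩ := Finset.mem_image.1 hy
      have h2 : L.blk u = L.blk v ∧ L.blk u ≠ 0 := by
        by_contra h3
        exact hindep i u hu v hv ((L.adj u v).2 ⟨hxy, h3⟩)
      have h4 : ∀ w ∈ Q i, L.blk w = L.blk u := by
        intro w hw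
        by_cases h5 : L.elm w = L.elm u
        · have h6 : L.blk v = L.blk w ∧ L.blk v ≠ 0 := by
            by_contra h3
            exact hindep i v hv w hw ((L.adj v w).2 ⟨by rw [h5]; exact Ne.symm hxy, h3⟩)
          rw [← h6.1, h2.1]
        · have h6 : L.blk u = L.blk w ∧ L.blk u ≠ 0 := by
            by_contra h3
            exact hindep i u hu w hw ((L.adj u w).2 ⟨Ne.symm h5, h3⟩)
          exact h6.1.symm
      obtain ⟨hT, -⟩ := L.trp_mem u h2.2
      have h5 : (Q i).image L.elm ⊆ (el (L.trp (L.blk u))).toFinset := by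
        intro z hz
        obtain ⟨w, hw, rfl⟩ := Finset.mem_image.1 hz
        have h6 := h4 w hw
        have h7 := (L.trp_mem w (by rw [h6]; exact h2.2)).2
        rw [h6] at h7
        exact List.mem_toFinset.2 h7
      have h6 : (el (L.trp (L.blk u))).toFinset.card ≤ 3 :=
        (List.toFinset_card_le _).trans (le_of_eq rfl)
      refine ⟨(Finset.card_le_card h5).trans h6, fun h7 => ⟨_, hT, ?_⟩⟩
      exact Finset.eq_of_subset_of_card_le h5 (by rw [h7]; exact h6)
    · exact ⟨by omega, fun h2 => by omega⟩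
  have hun : S.image L.elm = Finset.univ.biUnion fun i => (Q i).image L.elm := by
    ext x
    rw [Finset.mem_image, Finset.mem_biUnion]
    constructor
    · rintro ⟨v, hv, rfl⟩
      refine ⟨d ⟨v, hv⟩, Finset.mem_univ _, Finset.mem_image_of_mem _ ?_⟩
      exact Finset.mem_filter.2 ⟨hv, hv, rfl⟩
    · rintro ⟨i, -, hx⟩
      obtain ⟨v, hv, rfl⟩ := Finset.mem_image.1 hx
      exact ⟨v, (Finset.mem_filter.1 hv).1, rfl⟩
  have hN1 : (S.image L.elm).card ≤ 3 * q := by
    have h1 : S.image L.elm ⊆ Finset.range (3 * q) := by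
      intro x hx
      obtain ⟨v, -, rfl⟩ := Finset.mem_image.1 hx
      exact Finset.mem_range.2 (L.elm_lt v)
    have h2 := Finset.card_le_card h1
    rwa [Finset.card_range] at h2
  have hN2 : (S.image L.elm).card ≤ ∑ i : Fin m, ((Q i).image L.elm).card := by
    rw [hun]
    exact Finset.card_biUnion_le
  have hN3 : ∑ i : Fin m, ((Q i).image L.elm).card ≤ m * 3 := by
    have h1 := Finset.sum_le_card_nsmul Finset.univ (fun i => ((Q i).image L.elm).card) 3
      (fun i _ => (hE i).1)
    rwa [Finset.card_univ, Fintype.card_fin, smul_eq_mul] at h1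
  have hmq : m = q := by omega
  have hN : (S.image L.elm).card = 3 * q := by omega
  have hall : ∀ i, ((Q i).image L.elm).card = 3 := by
    intro i
    by_contra h1
    have h2 : ((Q i).image L.elm).card < 3 := lt_of_le_of_ne (hE i).1 h1
    have h3 : ∑ i : Fin m, ((Q i).image L.elm).card < ∑ _i : Fin m, 3 :=
      Finset.sum_lt_sum (fun j _ => (hE j).1) ⟨i, Finset.mem_univ _, h2⟩
    rw [Finset.sum_const, Finset.card_univ, Fintype.card_fin, smul_eq_mul] at h3
    omega
  have hT : ∀ i, ∃ T ∈ I.1, (Q i).image L.elm = (el T).toFinset := fun i => (hE i).2 (hall i)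
  choose T hTm hTe using hT
  rw [X3C_iff_finset hI]
  refine ⟨Finset.univ.image T, ?_, ?_⟩
  · intro t ht
    obtain ⟨i, -, rfl⟩ := Finset.mem_image.1 ht
    exact hTm i
  · intro x hx
    have hrange : S.image L.elm = Finset.range (3 * q) := by
      refine Finset.eq_of_subset_of_card_le ?_ ?_
      · intro x hx
        obtain ⟨v, -, rfl⟩ := Finset.mem_image.1 hx
        exact Finset.mem_range.2 (L.elm_lt v)
      · rw [Finset.card_range, hN]
    have h1 : x ∈ S.image L.elm := by rw [hrange]; exact Finset.mem_range.2 hx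
    rw [hun, Finset.mem_biUnion] at h1
    obtain ⟨i, -, hi⟩ := h1
    refine ⟨T i, ⟨Finset.mem_image_of_mem _ (Finset.mem_univ _), ?_⟩, ?_⟩
    · rw [hTe i] at hi
      exact List.mem_toFinset.1 hi
    · rintro t ⟨ht, hxt⟩
      obtain ⟨j, -, rfl⟩ := Finset.mem_image.1 ht
      by_contra hne
      have hji : j ≠ i := fun h => hne (by rw [h])
      have hj : x ∈ (Q j).image L.elm := by rw [hTe j]; exact List.mem_toFinset.2 hxt
      -- the union is too small
      have h2 : S.image L.elm ⊆ ((Q i).image L.elm).erase x ∪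
          (Finset.univ.erase i).biUnion fun i => (Q i).image L.elm := by
        intro y hy
        rw [Finset.mem_union]
        by_cases hyx : y = x
        · right
          rw [hyx]
          exact Finset.mem_biUnion.2 ⟨j, Finset.mem_erase.2 ⟨hji, Finset.mem_univ _⟩, hj⟩
        · rw [hun, Finset.mem_biUnion] at hy
          obtain ⟨l, -, hl⟩ := hy
          by_cases hli : l = i
          · left
            rw [hli] at hl
            exact Finset.mem_erase.2 ⟨hyx, hl⟩
          · right
            exact Finset.mem_biUnion.2 ⟨l, Finset.mem_erase.2 ⟨hli, Finset.mem_univ _⟩, hl⟩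
      have h3 := (Finset.card_le_card h2).trans (Finset.card_union_le _ _)
      have h4 : (((Q i).image L.elm).erase x).card = 2 := by
        rw [Finset.card_erase_of_mem hi, hall i]
      have h5 : ((Finset.univ.erase i).biUnion fun i => (Q i).image L.elm).card ≤
          (Finset.univ.erase i).card * 3 :=
        Finset.card_biUnion_le_card_mul _ _ _ fun l _ => (hE l).1
      rw [Finset.card_erase_of_mem (Finset.mem_univ _), Finset.card_univ, Fintype.card_fin] at h5
      have h6 : 0 < m := lt_of_le_of_lt (Nat.zero_le _) i.2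
      omega

theorem proper_elm : Proper G L.elm := fun u v h => ((L.adj u v).1 h).1

/-- **Correctness**, for both problems. -/
theorem correct (hI : X3CPr I) (hq : 2 ≤ I.2) :
    (X3C I ↔ ¬ disc G ≤ 2 * I.2 - 1) ∧ (X3C I ↔ ¬ discConn G ≤ 2 * I.2 - 1) := by
  constructor
  · rw [disc_le_iff]
    constructor
    · rintro hX ⟨c, hc, h⟩
      obtain ⟨S, -, hS⟩ := L.large hI hq hX hc
      have := h S
      omega
    · intro h
      by_contra hX
      refine h ⟨L.elm, L.proper_elm, fun S => ?_⟩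
      by_contra h1
      exact hX (L.cover hI (S := S) (by omega))
  · rw [discConn_le_iff]
    constructor
    · rintro hX ⟨c, hc, h⟩
      obtain ⟨S, hconn, hS⟩ := L.large hI hq hX hc
      have := h S hconn
      omega
    · intro h
      by_contra hX
      refine h ⟨L.elm, L.proper_elm, fun S _ => ?_⟩
      by_contra h1
      exact hX (L.cover hI (S := S) (by omega))

end Lay

end Pool.Agent.R550.CD
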