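import Pool.Agent.R550.CD.Main
import Pool.Agent.R550.W1.Clique
import Pool.Agent.H622R2.CoNP

/-!
# The chromatic discrepancy problems are coNP-hard
-/

namespace Pool.Agent.R550.CD

open Pool.Agent.NPC Pool.Agent.NPC.H632 Pool.Agent.R550.W1

/-! ### At least two triples in a cover -/

/-- adding a triple of new elements -/
def pad (I : List (ℕ × ℕ × ℕ) × ℕ) : List (ℕ × ℕ × ℕ) × ℕ :=
  ((3 * I.2, 3 * I.2 + 1, 3 * I.2 + 2) :: I.1, I.2 + 1)

theorem pad_pr {I : List (ℕ × ℕ × ℕ) × ℕ} (hI : X3CPr I) : X3CPr (pad I) := by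
  refine ⟨?_, by simp [pad], ?_⟩
  · intro t ht
    rcases List.mem_cons.1 ht with rfl | ht
    · refine ⟨by simp [el], fun x hx => ?_⟩
      simp only [el, List.mem_cons, List.not_mem_nil, or_false] at hx
      simp only [pad]
      omega
    · obtain ⟨h1, h2⟩ := hI.1 t ht
      refine ⟨h1, fun x hx => ?_⟩
      have := h2 x hx
      simp only [pad]
      omega
  · have := hI.2.2
    simp only [pad, List.length_cons]
    omega

theorem X3C_pad {I : List (ℕ × ℕ × ℕ) × ℕ} (hI : X3CPr I) : X3C I ↔ X3C (pad I) := by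
  classical
  rw [X3C_iff_finset hI, X3C_iff_finset (pad_pr hI)]
  set t0 : ℕ × ℕ × ℕ := (3 * I.2, 3 * I.2 + 1, 3 * I.2 + 2) with ht0
  have hel : ∀ x, x ∈ el t0 ↔ 3 * I.2 ≤ x ∧ x < 3 * I.2 + 3 := by
    intro x
    rw [ht0]
    simp only [el, List.mem_cons, List.not_mem_nil, or_false]
    omega
  constructor
  · rintro ⟨C, hC, hu⟩
    refine ⟨insert t0 C, ?_, ?_⟩
    · intro t ht
      rcases Finset.mem_insert.1 ht with rfl | ht
      · exact List.mem_cons_self ..
      · exact List.mem_cons_of_mem _ (hC t ht)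
    · intro x hx
      have hx' : x < 3 * (I.2 + 1) := hx
      by_cases h : x < 3 * I.2
      · obtain ⟨t, ⟨ht, hxt⟩, hun⟩ := hu x h
        refine ⟨t, ⟨Finset.mem_insert_of_mem ht, hxt⟩, ?_⟩
        rintro t' ⟨ht', hxt'⟩
        rcases Finset.mem_insert.1 ht' with rfl | ht'
        · have := ((hel x).1 hxt').1
          omega
        · exact hun t' ⟨ht', hxt'⟩
      · refine ⟨t0, ⟨Finset.mem_insert_self _ _, (hel x).2 (by omega)⟩, ?_⟩
        rintro t' ⟨ht', hxt'⟩
        rcases Finset.mem_insert.1 ht' with rfl | ht'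
        · rfl
        · exact absurd ((hI.1 t' (hC t' ht')).2 x hxt') h
  · rintro ⟨C, hC, hu⟩
    refine ⟨C.erase t0, ?_, ?_⟩
    · intro t ht
      obtain ⟨h1, h2⟩ := Finset.mem_erase.1 ht
      rcases List.mem_cons.1 (hC t h2) with h3 | h3
      · exact absurd h3 h1
      · exact h3
    · intro x hx
      have hx' : x < 3 * (pad I).2 := by
        simp only [pad]
        omega
      obtain ⟨t, ⟨ht, hxt⟩, hun⟩ := hu x hx'
      have hne : t ≠ t0 := by
        rintro rfl
        have := ((hel x).1 hxt).1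
        omega
      refine ⟨t, ⟨Finset.mem_erase.2 ⟨hne, ht⟩, hxt⟩, ?_⟩
      rintro t' ⟨ht', hxt'⟩
      exact hun t' ⟨(Finset.mem_erase.1 ht').2, hxt'⟩

theorem poly_pad : NPC.Poly pad := by
  unfold pad
  fun_prop

theorem hardPr_X3C2 : HardPr (fun I => X3CPr I ∧ 2 ≤ I.2) X3C := by
  refine hardPr_X3C.trans poly_pad (fun I hI => ⟨pad_pr hI, ?_⟩) (fun I hI => X3C_pad hI)
  have := hI.2.1
  simp only [pad]
  omega

/-! ### The graph -/

/-- the triple of a block -/
def trp (I : List (ℕ × ℕ × ℕ) × ℕ) (t : ℕ) : ℕ × ℕ × ℕ := (I.1 ++ I.1).getD (t - 1) (0, 0, 0)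

/-- the element of a label -/
def elmL (I : List (ℕ × ℕ × ℕ) × ℕ) (a : ℕ × ℕ) : ℕ :=
  if a.1 = 0 then a.2 else if a.2 = 0 then (trp I a.1).1 else if a.2 = 1 then (trp I a.1).2.1
  else (trp I a.1).2.2

/-- the list of the labels -/
def lbs (I : List (ℕ × ℕ × ℕ) × ℕ) : List (ℕ × ℕ) :=
  blk (List.range (2 * I.1.length + 1)) (fun t => if t = 0 then 3 * I.2 else 3)

/-- the adjacency test -/
def T (I : List (ℕ × ℕ × ℕ) × ℕ) (a b : ℕ × ℕ) : Bool :=
  !decide (elmL I a = elmL I b) && !(decide (a.1 = b.1) && !decide (a.1 = 0))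

/-- the graph -/
def gA (I : List (ℕ × ℕ × ℕ) × ℕ) : List (List ℕ) := mkG (lbs I) (T I)

theorem mem_lbs {I : List (ℕ × ℕ × ℕ) × ℕ} {a : ℕ × ℕ} : a ∈ lbs I ↔
    a.1 < 2 * I.1.length + 1 ∧ a.2 < if a.1 = 0 then 3 * I.2 else 3 := by
  unfold lbs
  rw [mem_blk, List.mem_range]

theorem exists_lay {I : List (ℕ × ℕ × ℕ) × ℕ} (hI : X3CPr I) :
    Nonempty (Lay (GB.graph (gA I)) I) := by
  classical
  obtain ⟨lab, hinj, hmem, hsur, hadj⟩ := mkG_lab (lbs I) (nodup_blk List.nodup_range _) (T I)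
  have hmem' : ∀ v, (lab v).1 < 2 * I.1.length + 1 ∧
      (lab v).2 < if (lab v).1 = 0 then 3 * I.2 else 3 := fun v => mem_lbs.1 (hmem v)
  have hq := hI.2.1
  have h0 : (0, 0) ∈ lbs I := by
    rw [mem_lbs]
    simp only [if_true]
    omega
  obtain ⟨v0, -⟩ := hsur _ h0
  let vx : ℕ → ℕ → Fin (mkG (lbs I) (T I)).length := fun t x =>
    if h : ∃ v, (lab v).1 = t ∧ elmL I (lab v) = x then h.choose else v0
  have hvx : ∀ t x, (∃ v, (lab v).1 = t ∧ elmL I (lab v) = x) →
      (lab (vx t x)).1 = t ∧ elmL I (lab (vx t x)) = x := by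
    intro t x h
    have : vx t x = h.choose := by simp only [vx, dif_pos h]
    rw [this]
    exact h.choose_spec
  have htrp : ∀ t, t ≠ 0 → t < 2 * I.1.length + 1 → trp I t ∈ I.1 := by
    intro t ht ht'
    unfold trp
    have h1 : t - 1 < (I.1 ++ I.1).length := by
      rw [List.length_append]
      omega
    rw [List.getD_eq_getElem _ _ h1]
    have h2 := List.getElem_mem h1
    rw [List.mem_append, or_self] at h2
    exact h2
  have helm : ∀ a : ℕ × ℕ, a.1 ≠ 0 → elmL I a ∈ el (trp I a.1) := by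
    intro a ha
    unfold elmL el
    rw [if_neg ha]
    split_ifs <;> simp
  refine ⟨⟨fun v => (lab v).1, fun v => elmL I (lab v), trp I, vx, ?_, ?_, ?_, ?_, ?_⟩⟩
  · intro v hv
    exact ⟨htrp _ hv (hmem' v).1, helm _ hv⟩
  · intro v
    by_cases hv : (lab v).1 = 0
    · have h1 := (hmem' v).2
      rw [if_pos hv] at h1
      unfold elmL
      rw [if_pos hv]
      exact h1
    · exact (hI.1 _ (htrp _ hv (hmem' v).1)).2 _ (helm _ hv)
  · intro x hx
    refine hvx 0 x ?_
    obtain ⟨v, hv⟩ := hsur (0, x) (mem_lbs.2 ⟨by simp only; omega, by simpa using hx⟩)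
    exact ⟨v, by rw [hv], by rw [hv]; rfl⟩
  · intro t ht
    obtain ⟨i, hi, hit⟩ := List.getElem_of_mem ht
    have key : ∀ s, s ≠ 0 → s < 2 * I.1.length + 1 → trp I s = t → ∀ x ∈ el t,
        (lab (vx s x)).1 = s ∧ elmL I (lab (vx s x)) = x := by
      intro s hs hs' hst x hx
      refine hvx s x ?_
      have hsL : ∀ e < 3, (s, e) ∈ lbs I := fun e he => mem_lbs.2 ⟨hs', by
        simp only
        rw [if_neg hs]
        exact he⟩
      simp only [el, List.mem_cons, List.not_mem_nil, or_false] at hx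
      rcases hx with hx | hx | hx
      · obtain ⟨v, hv⟩ := hsur (s, 0) (hsL 0 (by norm_num))
        refine ⟨v, by rw [hv], ?_⟩
        rw [hv, hx]
        unfold elmL
        simp only
        rw [if_neg hs, if_true, hst]
      · obtain ⟨v, hv⟩ := hsur (s, 1) (hsL 1 (by norm_num))
        refine ⟨v, by rw [hv], ?_⟩
        rw [hv, hx]
        unfold elmL
        simp only
        rw [if_neg hs, if_neg (by norm_num), if_true, hst]
      · obtain ⟨v, hv⟩ := hsur (s, 2) (hsL 2 (by norm_num))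
        refine ⟨v, by rw [hv], ?_⟩
        rw [hv, hx]
        unfold elmL
        simp only
        rw [if_neg hs, if_neg (by norm_num), if_neg (by norm_num), hst]
    have e1 : trp I (i + 1) = t := by
      unfold trp
      rw [Nat.add_sub_cancel, List.getD_eq_getElem _ _ (by rw [List.length_append]; omega),
        List.getElem_append_left hi, hit]
    have e2 : trp I (i + I.1.length + 1) = t := by
      unfold trp
      rw [Nat.add_sub_cancel, List.getD_eq_getElem _ _ (by rw [List.length_append]; omega),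
        List.getElem_append_right (by omega)]
      simp only [Nat.add_sub_cancel, hit]
    refine ⟨i + 1, i + I.1.length + 1, by omega, by omega, by omega, e1, e2, fun x hx => ?_⟩
    exact ⟨key _ (by omega) (by omega) e1 x hx, key _ (by omega) (by omega) e2 x hx⟩
  · intro u v
    show (GB.graph (mkG (lbs I) (T I))).Adj u v ↔ _
    rw [hadj]
    unfold T
    simp only [Bool.and_eq_true, Bool.not_eq_true', decide_eq_false_iff_not,
      Bool.and_eq_false_iff, Bool.not_eq_false', decide_eq_true_eq]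
    constructor
    · rintro ⟨-, ⟨h1, h2⟩ | ⟨h1, h2⟩⟩
      · refine ⟨h1, ?_⟩
        rintro ⟨h3, h4⟩
        rcases h2 with h2 | h2
        · exact h2 h3
        · exact h4 h2
      · refine ⟨Ne.symm h1, ?_⟩
        rintro ⟨h3, h4⟩
        rcases h2 with h2 | h2
        · exact h2 h3.symm
        · exact h4 (h3.trans h2)
    · rintro ⟨h1, h2⟩
      refine ⟨fun h => h1 (by rw [h]), Or.inl ⟨h1, ?_⟩⟩
      by_cases h3 : (lab u).1 = (lab v).1
      · right
        by_contra h4
        exact h2 ⟨h3, h4⟩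
      · exact Or.inl h3

/-! ### Polynomial time -/

section

variable {α : Type} [TEnc α]

theorem poly_trp {I : α → List (ℕ × ℕ × ℕ) × ℕ} {t : α → ℕ} (hI : NPC.Poly I) (ht : NPC.Poly t) :
    NPC.Poly (fun x => trp (I x) (t x)) := by
  unfold trp
  fun_prop

theorem poly_elmL {I : α → List (ℕ × ℕ × ℕ) × ℕ} {a : α → ℕ × ℕ} (hI : NPC.Poly I)
    (ha : NPC.Poly a) : NPC.Poly (fun x => elmL (I x) (a x)) := by
  have h1 := poly_trp (t := fun x => (a x).1) hI (by fun_prop)
  unfold elmL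
  fun_prop

theorem poly_T {I : α → List (ℕ × ℕ × ℕ) × ℕ} {a b : α → ℕ × ℕ} (hI : NPC.Poly I)
    (ha : NPC.Poly a) (hb : NPC.Poly b) : NPC.Poly (fun x => T (I x) (a x) (b x)) := by
  have h1 := poly_elmL hI ha
  have h2 := poly_elmL hI hb
  unfold T
  fun_prop

end

/-- the instance, with the number of the elements bounded by the number of the triples -/
def red (I : List (ℕ × ℕ × ℕ) × ℕ) : List (List ℕ) × ℕ :=
  (gA (I.1, min I.2 I.1.length), 2 * I.2 - 1)

theorem poly_red : NPC.Poly red := by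
  unfold red gA
  have hJ : NPC.Poly (fun I : List (ℕ × ℕ × ℕ) × ℕ => (I.1, min I.2 I.1.length)) := by fun_prop
  refine NPC.Poly.pair ?_ (by fun_prop)
  refine poly_mkG (vs := fun I : List (ℕ × ℕ × ℕ) × ℕ => lbs (I.1, min I.2 I.1.length))
    (t := fun (I : List (ℕ × ℕ × ℕ) × ℕ) a b => T (I.1, min I.2 I.1.length) a b) ?_ ?_
  · unfold lbs
    have hm : UPoly (fun I : List (ℕ × ℕ × ℕ) × ℕ => I.1.length) := UPoly.length (by fun_prop)
    refine poly_blk (cnt := fun (I : List (ℕ × ℕ × ℕ) × ℕ) t =>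
      if t = 0 then 3 * min I.2 I.1.length else 3)
      (UPoly.range (UPoly.add (UPoly.mul (UPoly.const 2) hm) (UPoly.const 1))) ?_
    have hm' : UPoly (fun p : (List (ℕ × ℕ × ℕ) × ℕ) × ℕ => p.1.1.length) :=
      UPoly.length (by fun_prop)
    refine UPoly.of_le (n := fun p : (List (ℕ × ℕ × ℕ) × ℕ) × ℕ => 3 * p.1.1.length + 3)
      (by fun_prop) (UPoly.add (UPoly.mul (UPoly.const 3) hm') (UPoly.const 3)) ?_
    intro p
    have := Nat.min_le_right p.1.2 p.1.1.length
    split_ifs <;> omega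
  · exact poly_T (by fun_prop) (by fun_prop) (by fun_prop)

theorem red_eq {I : List (ℕ × ℕ × ℕ) × ℕ} (hI : X3CPr I) : red I = (gA I, 2 * I.2 - 1) := by
  unfold red
  rw [Nat.min_eq_left hI.2.2]

theorem hard₁ : HardPr (fun _ => True) (fun x => ¬ L₁ x) := by
  refine hardPr_X3C2.trans poly_red (fun _ _ => trivial) (fun I hI => ?_)
  rw [red_eq hI.1]
  obtain ⟨L⟩ := exists_lay hI.1
  exact (L.correct hI.1 hI.2).1

theorem hard₂ : HardPr (fun _ => True) (fun x => ¬ L₂ x) := by
  refine hardPr_X3C2.trans poly_red (fun _ _ => trivial) (fun I hI => ?_)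
  rw [red_eq hI.1]
  obtain ⟨L⟩ := exists_lay hI.1
  exact (L.correct hI.1 hI.2).2

/-- A `coNP`-hard language in `NP` makes `NP` equal to `coNP`. -/
theorem np_eq_conp {L : Set (List Bool)} (h : CoNPHard L) (h' : InNP L) :
    ∀ L' : Set (List Bool), InNP L' ↔ InCoNP L' := by
  have key : ∀ L' : Set (List Bool), InCoNP L' → InNP L' := fun L' hL' =>
    H622R2.InNP.of_reduces (h L' hL') h'
  intro L'
  refine ⟨fun hL' => ?_, key L'⟩
  refine key L'ᶜ ?_
  show InNP L'ᶜᶜ
  rwa [compl_compl]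

end Pool.Agent.R550.CD
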